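import Mathlib

/-!
Project FG (helper283), job RLC: the conditions at the real places, pure real part.
-/

set_option autoImplicit false

namespace Pool.Agent.Q181.FG.R

/-- the covering has a real point -/
def RR (E : Fin 3 → ℝ) (α β : ℝ) : Prop :=
  α ≠ 0 ∧ β ≠ 0 ∧ ∃ (z : Fin 3 → ℝ) (w : ℝ), (z ≠ 0 ∨ w ≠ 0) ∧
    α * z 0 ^ 2 + E 0 * w ^ 2 = β * z 1 ^ 2 + E 1 * w ^ 2 ∧
    α * z 0 ^ 2 + E 0 * w ^ 2 = α * β * z 2 ^ 2 + E 2 * w ^ 2

/-- the description by signs -/
def SG (E : Fin 3 → ℝ) (α β : ℝ) : Prop :=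
  (0 < α ∧ 0 < β) ∨ (E 0 < E 1 ∧ E 0 < E 2 ∧ 0 < α ∧ β < 0) ∨ (E 1 < E 0 ∧ E 1 < E 2 ∧ α < 0 ∧ 0 < β) ∨
    (E 2 < E 0 ∧ E 2 < E 1 ∧ α < 0 ∧ β < 0)

theorem rr_of {E : Fin 3 → ℝ} {α β : ℝ} (hα : α ≠ 0) (hβ : β ≠ 0) (x : ℝ) (h0 : 0 ≤ (x - E 0) / α)
    (h1 : 0 ≤ (x - E 1) / β) (h2 : 0 ≤ (x - E 2) / (α * β)) : RR E α β := by
  refine ⟨hα, hβ, ![√((x - E 0) / α), √((x - E 1) / β), √((x - E 2) / (α * β))], 1, Or.inr one_ne_zero, ?_, ?_⟩
  · simp only [Matrix.cons_val_zero, Matrix.cons_val_one]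
    rw [Real.sq_sqrt h0, Real.sq_sqrt h1, mul_div_cancel₀ _ hα, mul_div_cancel₀ _ hβ]
    ring
  · simp only [Matrix.cons_val_zero, Matrix.cons_val]
    rw [Real.sq_sqrt h0, Real.sq_sqrt h2, mul_div_cancel₀ _ hα, mul_div_cancel₀ _ (mul_ne_zero hα hβ)]
    ring

theorem rr_iff {E : Fin 3 → ℝ} (hE : Function.Injective E) {α β : ℝ} : RR E α β ↔ SG E α β := by
  have h01 : E 0 ≠ E 1 := fun h => absurd (hE h) (by decide)
  have h02 : E 0 ≠ E 2 := fun h => absurd (hE h) (by decide)
  have h12 : E 1 ≠ E 2 := fun h => absurd (hE h) (by decide)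
  constructor
  · rintro ⟨hα, hβ, z, w, hzw, h1, h2⟩
    rcases lt_or_gt_of_ne hα with ha | ha <;> rcases lt_or_gt_of_ne hβ with hb | hb
    · -- both negative
      have hab : 0 < α * β := mul_pos_of_neg_of_neg ha hb
      by_cases hw : w = 0
      · exfalso
        subst hw
        simp only [ne_eq, OfNat.ofNat_ne_zero, not_false_eq_true, zero_pow, mul_zero, add_zero] at h1 h2
        have e0 : 0 ≤ z 0 ^ 2 := sq_nonneg _
        have e1 : 0 ≤ z 1 ^ 2 := sq_nonneg _
        have e2 : 0 ≤ z 2 ^ 2 := sq_nonneg _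
        have f1 : α * z 0 ^ 2 ≤ 0 := mul_nonpos_of_nonpos_of_nonneg ha.le e0
        have f2 : 0 ≤ α * β * z 2 ^ 2 := mul_nonneg hab.le e2
        have g1 : α * z 0 ^ 2 = 0 := le_antisymm f1 (by rw [h2]; exact f2)
        have k0 : z 0 = 0 := by
          have := (mul_eq_zero.1 g1).resolve_left hα
          exact pow_eq_zero_iff (two_ne_zero) |>.1 this
        have k1 : z 1 = 0 := by
          rw [g1] at h1
          have := (mul_eq_zero.1 h1.symm).resolve_left hβ
          exact pow_eq_zero_iff (two_ne_zero) |>.1 this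
        have k2 : z 2 = 0 := by
          rw [g1] at h2
          have := (mul_eq_zero.1 h2.symm).resolve_left (mul_ne_zero hα hβ)
          exact pow_eq_zero_iff (two_ne_zero) |>.1 this
        rcases hzw with h | h
        · apply h
          funext i
          fin_cases i
          · exact k0
          · exact k1
          · exact k2
        · exact h rfl
      · have hw2 : 0 < w ^ 2 := by positivity
        refine Or.inr (Or.inr (Or.inr ⟨?_, ?_, ha, hb⟩))
        · refine lt_of_le_of_ne ?_ h02.symm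
          by_contra hlt
          push Not at hlt
          have e0 := mul_nonneg_of_nonpos_of_nonpos ha.le (neg_nonpos.2 (sq_nonneg (z 0)))
          have e2 := mul_nonneg hab.le (sq_nonneg (z 2))
          nlinarith [mul_pos (sub_pos.2 hlt) hw2]
        · refine lt_of_le_of_ne ?_ h12.symm
          by_contra hlt
          push Not at hlt
          have e0 := mul_nonneg_of_nonpos_of_nonpos hb.le (neg_nonpos.2 (sq_nonneg (z 1)))
          have e2 := mul_nonneg hab.le (sq_nonneg (z 2))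
          nlinarith [mul_pos (sub_pos.2 hlt) hw2]
    · -- α < 0 < β
      have hab : α * β < 0 := mul_neg_of_neg_of_pos ha hb
      by_cases hw : w = 0
      · exfalso
        subst hw
        simp only [ne_eq, OfNat.ofNat_ne_zero, not_false_eq_true, zero_pow, mul_zero, add_zero] at h1 h2
        have f1 : α * z 0 ^ 2 ≤ 0 := mul_nonpos_of_nonpos_of_nonneg ha.le (sq_nonneg _)
        have f2 : 0 ≤ β * z 1 ^ 2 := mul_nonneg hb.le (sq_nonneg _)
        have g1 : α * z 0 ^ 2 = 0 := le_antisymm f1 (by rw [h1]; exact f2)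
        have k0 : z 0 = 0 := by
          have := (mul_eq_zero.1 g1).resolve_left hα
          exact pow_eq_zero_iff (two_ne_zero) |>.1 this
        have k1 : z 1 = 0 := by
          rw [g1] at h1
          have := (mul_eq_zero.1 h1.symm).resolve_left hβ
          exact pow_eq_zero_iff (two_ne_zero) |>.1 this
        have k2 : z 2 = 0 := by
          rw [g1] at h2
          have := (mul_eq_zero.1 h2.symm).resolve_left (mul_ne_zero hα hβ)
          exact pow_eq_zero_iff (two_ne_zero) |>.1 this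
        rcases hzw with h | h
        · apply h
          funext i
          fin_cases i
          · exact k0
          · exact k1
          · exact k2
        · exact h rfl
      · have hw2 : 0 < w ^ 2 := by positivity
        refine Or.inr (Or.inr (Or.inl ⟨?_, ?_, ha, hb⟩))
        · refine lt_of_le_of_ne ?_ h01.symm
          by_contra hlt
          push Not at hlt
          have e0 := mul_nonneg_of_nonpos_of_nonpos ha.le (neg_nonpos.2 (sq_nonneg (z 0)))
          have e2 := mul_nonneg hb.le (sq_nonneg (z 1))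
          nlinarith [mul_pos (sub_pos.2 hlt) hw2]
        · refine lt_of_le_of_ne ?_ h12
          by_contra hlt
          push Not at hlt
          have e0 := mul_nonneg hb.le (sq_nonneg (z 1))
          have e2 := mul_nonneg_of_nonpos_of_nonpos hab.le (neg_nonpos.2 (sq_nonneg (z 2)))
          nlinarith [mul_pos (sub_pos.2 hlt) hw2]
    · -- β < 0 < α
      have hab : α * β < 0 := mul_neg_of_pos_of_neg ha hb
      by_cases hw : w = 0
      · exfalso
        subst hw
        simp only [ne_eq, OfNat.ofNat_ne_zero, not_false_eq_true, zero_pow, mul_zero, add_zero] at h1 h2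
        have f1 : 0 ≤ α * z 0 ^ 2 := mul_nonneg ha.le (sq_nonneg _)
        have f2 : β * z 1 ^ 2 ≤ 0 := mul_nonpos_of_nonpos_of_nonneg hb.le (sq_nonneg _)
        have g1 : α * z 0 ^ 2 = 0 := le_antisymm (by rw [h1]; exact f2) f1
        have k0 : z 0 = 0 := by
          have := (mul_eq_zero.1 g1).resolve_left hα
          exact pow_eq_zero_iff (two_ne_zero) |>.1 this
        have k1 : z 1 = 0 := by
          rw [g1] at h1
          have := (mul_eq_zero.1 h1.symm).resolve_left hβ
          exact pow_eq_zero_iff (two_ne_zero) |>.1 this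
        have k2 : z 2 = 0 := by
          rw [g1] at h2
          have := (mul_eq_zero.1 h2.symm).resolve_left (mul_ne_zero hα hβ)
          exact pow_eq_zero_iff (two_ne_zero) |>.1 this
        rcases hzw with h | h
        · apply h
          funext i
          fin_cases i
          · exact k0
          · exact k1
          · exact k2
        · exact h rfl
      · have hw2 : 0 < w ^ 2 := by positivity
        refine Or.inr (Or.inl ⟨?_, ?_, ha, hb⟩)
        · refine lt_of_le_of_ne ?_ h01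
          by_contra hlt
          push Not at hlt
          have e0 := mul_nonneg ha.le (sq_nonneg (z 0))
          have e2 := mul_nonneg_of_nonpos_of_nonpos hb.le (neg_nonpos.2 (sq_nonneg (z 1)))
          nlinarith [mul_pos (sub_pos.2 hlt) hw2]
        · refine lt_of_le_of_ne ?_ h02
          by_contra hlt
          push Not at hlt
          have e0 := mul_nonneg ha.le (sq_nonneg (z 0))
          have e2 := mul_nonneg_of_nonpos_of_nonpos hab.le (neg_nonpos.2 (sq_nonneg (z 2)))
          nlinarith [mul_pos (sub_pos.2 hlt) hw2]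
    · exact Or.inl ⟨ha, hb⟩
  · rintro (⟨ha, hb⟩ | ⟨g1, g2, ha, hb⟩ | ⟨g1, g2, ha, hb⟩ | ⟨g1, g2, ha, hb⟩)
    · have k0 := le_abs_self (E 0)
      have k1 := le_abs_self (E 1)
      have k2 := le_abs_self (E 2)
      have l0 := abs_nonneg (E 0)
      have l1 := abs_nonneg (E 1)
      have l2 := abs_nonneg (E 2)
      refine rr_of ha.ne' hb.ne' (|E 0| + |E 1| + |E 2|) ?_ ?_ ?_
      · exact div_nonneg (by linarith) ha.le
      · exact div_nonneg (by linarith) hb.le
      · exact div_nonneg (by linarith) (mul_pos ha hb).le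
    · refine rr_of ha.ne' hb.ne (E 0) ?_ ?_ ?_
      · rw [sub_self, zero_div]
      · exact div_nonneg_of_nonpos (by linarith) hb.le
      · exact div_nonneg_of_nonpos (by linarith) (mul_neg_of_pos_of_neg ha hb).le
    · refine rr_of ha.ne hb.ne' (E 1) ?_ ?_ ?_
      · exact div_nonneg_of_nonpos (by linarith) ha.le
      · rw [sub_self, zero_div]
      · exact div_nonneg_of_nonpos (by linarith) (mul_neg_of_neg_of_pos ha hb).le
    · refine rr_of ha.ne hb.ne (E 2) ?_ ?_ ?_
      · exact div_nonneg_of_nonpos (by linarith) ha.le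
      · exact div_nonneg_of_nonpos (by linarith) hb.le
      · rw [sub_self, zero_div]

theorem sg_mul {E : Fin 3 → ℝ} {α β α' β' : ℝ} (h : SG E α β) (h' : SG E α' β') : SG E (α * α') (β * β') := by
  rcases h with ⟨a1, a2⟩ | ⟨a1, a2, a3, a4⟩ | ⟨a1, a2, a3, a4⟩ | ⟨a1, a2, a3, a4⟩ <;>
    rcases h' with ⟨b1, b2⟩ | ⟨b1, b2, b3, b4⟩ | ⟨b1, b2, b3, b4⟩ | ⟨b1, b2, b3, b4⟩
  · exact Or.inl ⟨mul_pos a1 b1, mul_pos a2 b2⟩
  · exact Or.inr (Or.inl ⟨b1, b2, mul_pos a1 b3, mul_neg_of_pos_of_neg a2 b4⟩)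
  · exact Or.inr (Or.inr (Or.inl ⟨b1, b2, mul_neg_of_pos_of_neg a1 b3, mul_pos a2 b4⟩))
  · exact Or.inr (Or.inr (Or.inr ⟨b1, b2, mul_neg_of_pos_of_neg a1 b3, mul_neg_of_pos_of_neg a2 b4⟩))
  · exact Or.inr (Or.inl ⟨a1, a2, mul_pos a3 b1, mul_neg_of_neg_of_pos a4 b2⟩)
  · exact Or.inl ⟨mul_pos a3 b3, mul_pos_of_neg_of_neg a4 b4⟩
  · exact absurd a1 (not_lt.2 b1.le)
  · exact absurd a2 (not_lt.2 b1.le)
  · exact Or.inr (Or.inr (Or.inl ⟨a1, a2, mul_neg_of_neg_of_pos a3 b1, mul_pos a4 b2⟩))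
  · exact absurd a1 (not_lt.2 b1.le)
  · exact Or.inl ⟨mul_pos_of_neg_of_neg a3 b3, mul_pos a4 b4⟩
  · exact absurd a2 (not_lt.2 b2.le)
  · exact Or.inr (Or.inr (Or.inr ⟨a1, a2, mul_neg_of_neg_of_pos a3 b1, mul_neg_of_neg_of_pos a4 b2⟩))
  · exact absurd a1 (not_lt.2 b2.le)
  · exact absurd a2 (not_lt.2 b2.le)
  · exact Or.inl ⟨mul_pos_of_neg_of_neg a3 b3, mul_pos_of_neg_of_neg a4 b4⟩

theorem sg_twi {E : Fin 3 → ℝ} {α β n : ℝ} (hn : 0 < n) (h : SG E α β) : SG (fun i => n * E i) α β := by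
  have m : ∀ {i j : Fin 3}, E i < E j → n * E i < n * E j := fun h => mul_lt_mul_of_pos_left h hn
  rcases h with h | ⟨a1, a2, a3, a4⟩ | ⟨a1, a2, a3, a4⟩ | ⟨a1, a2, a3, a4⟩
  · exact Or.inl h
  · exact Or.inr (Or.inl ⟨m a1, m a2, a3, a4⟩)
  · exact Or.inr (Or.inr (Or.inl ⟨m a1, m a2, a3, a4⟩))
  · exact Or.inr (Or.inr (Or.inr ⟨m a1, m a2, a3, a4⟩))

theorem sg_tc0 {E : Fin 3 → ℝ} (hE : Function.Injective E) :
    SG E ((E 0 - E 2) * (E 0 - E 1)) (E 0 - E 1) := by
  have h01 : E 0 ≠ E 1 := fun h => absurd (hE h) (by decide)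
  have h02 : E 0 ≠ E 2 := fun h => absurd (hE h) (by decide)
  rcases lt_or_gt_of_ne h01 with a | a <;> rcases lt_or_gt_of_ne h02 with b | b
  · exact Or.inr (Or.inl ⟨a, b, mul_pos_of_neg_of_neg (by linarith) (by linarith), by linarith⟩)
  · exact Or.inr (Or.inr (Or.inr ⟨b, by linarith, mul_neg_of_pos_of_neg (by linarith) (by linarith), by linarith⟩))
  · exact Or.inr (Or.inr (Or.inl ⟨a, by linarith, mul_neg_of_neg_of_pos (by linarith) (by linarith), by linarith⟩))
  · exact Or.inl ⟨mul_pos (by linarith) (by linarith), by linarith⟩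

theorem sg_tc1 {E : Fin 3 → ℝ} (hE : Function.Injective E) :
    SG E (-(E 0 - E 1)) (-((E 1 - E 2) * (E 0 - E 1))) := by
  have h01 : E 0 ≠ E 1 := fun h => absurd (hE h) (by decide)
  have h12 : E 1 ≠ E 2 := fun h => absurd (hE h) (by decide)
  rcases lt_or_gt_of_ne h01 with a | a <;> rcases lt_or_gt_of_ne h12 with b | b
  · exact Or.inr (Or.inl ⟨a, by linarith, by linarith,
      neg_neg_of_pos (mul_pos_of_neg_of_neg (by linarith) (by linarith))⟩)
  · exact Or.inl ⟨by linarith, neg_pos_of_neg (mul_neg_of_pos_of_neg (by linarith) (by linarith))⟩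
  · exact Or.inr (Or.inr (Or.inl ⟨a, b, by linarith,
      neg_pos_of_neg (mul_neg_of_neg_of_pos (by linarith) (by linarith))⟩))
  · exact Or.inr (Or.inr (Or.inr ⟨by linarith, b, by linarith,
      neg_neg_of_pos (mul_pos (by linarith) (by linarith))⟩))

theorem sg_tc2 {E : Fin 3 → ℝ} (hE : Function.Injective E) :
    SG E (-(E 0 - E 2)) (-(E 1 - E 2)) := by
  have h02 : E 0 ≠ E 2 := fun h => absurd (hE h) (by decide)
  have h12 : E 1 ≠ E 2 := fun h => absurd (hE h) (by decide)
  rcases lt_or_gt_of_ne h02 with a | a <;> rcases lt_or_gt_of_ne h12 with b | b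
  · exact Or.inl ⟨by linarith, by linarith⟩
  · exact Or.inr (Or.inl ⟨by linarith, a, by linarith, by linarith⟩)
  · exact Or.inr (Or.inr (Or.inl ⟨by linarith, b, by linarith, by linarith⟩))
  · exact Or.inr (Or.inr (Or.inr ⟨a, b, by linarith, by linarith⟩))

end Pool.Agent.Q181.FG.R
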