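import Pool.Agent.Q283.FG.Stm3
import Pool.Agent.Q181.FG.RLCR

/-!
Project FG (helper283), job RLC: the conditions at the real places.
-/

set_option autoImplicit false

namespace Pool.Agent.Q181.FG

open NumberField IsDedekindDomain
open Pool.Agent.Q283.FG
open Pool.Agent.Q283.FT (Rt twi df)
open Pool.Agent.Q181.FG.R

/-- the condition at a real place by signs -/
theorem rx_iff {F : Type} [Field F] [NumberField F] {e : Fin 3 → F} (he : Function.Injective e) (φ : F →+* ℝ) (a b : F) :
    RX φ e a b ↔ SG (fun i => φ (e i)) (φ a) (φ b) := by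
  have hE : Function.Injective fun i => φ (e i) := φ.injective.comp he
  rw [← rr_iff hE, RX, RR, map_mul, map_ne_zero, map_ne_zero]

theorem rlc : S_RLC := by
  intro F _ _ e he φ
  have hE : Function.Injective fun i => φ (e i) := φ.injective.comp he.inj
  have htc : ∀ l, RX φ e (tc e l).1 (tc e l).2 := by
    intro l
    rw [rx_iff he.inj]
    fin_cases l
    · have := sg_tc0 hE
      simpa [tc, df] using this
    · have := sg_tc1 hE
      simpa [tc, df] using this
    · have := sg_tc2 hE
      simpa [tc, df] using this
  refine ⟨fun a b a' b' h h' => ?_, fun a b ha hb => ?_, fun a b n hn h => ?_, htc, ?_⟩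
  · rw [rx_iff he.inj] at h h' ⊢
    rw [map_mul, map_mul]
    exact sg_mul h h'
  · rw [rx_iff he.inj]
    exact Or.inl ⟨ha, hb⟩
  · have hn0 : n ≠ 0 := by
      rintro rfl
      rw [map_zero] at hn
      exact lt_irrefl _ hn
    have he' : Function.Injective (twi n e) := fun i j h => he.inj (mul_left_cancel₀ hn0 h)
    rw [rx_iff he.inj] at h
    rw [rx_iff he']
    have h1 := sg_twi hn h
    have h2 : (fun i => φ (twi n e i)) = fun i => φ n * φ (e i) := by
      funext i
      rw [twi, map_mul]
    rw [h2]
    exact h1
  · rcases lt_or_gt_of_ne (fun h => absurd (hE h) (by decide) : φ (e 0) ≠ φ (e 1)) with h | h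
    · refine ⟨_, _, htc 0, fun hh => ?_⟩
      have h1 := hh.2
      have h2 : (tc e 0).2 = e 0 - e 1 := by simp [tc, df]
      rw [h2, map_sub] at h1
      linarith
    · refine ⟨_, _, htc 1, fun hh => ?_⟩
      have h1 := hh.1
      have h2 : (tc e 1).1 = -(e 0 - e 1) := by simp [tc, df]
      rw [h2, map_neg, map_sub] at h1
      linarith

end Pool.Agent.Q181.FG
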